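import Mathlib
import Pool.Agent.MP_76b292_lc.Final
import Pool.Agent.MP_76b292_lc.StarB

set_option autoImplicit false

universe u v

namespace Pool.Agent.Results.MP_76b292_lc.Both

open Pool.Agent.MP_76b292_lc

/-- MRP implies (*), and PID does not: from PFA and infinitely many measurable cardinals there is
a model of ZFC and PID in which (*) fails. -/
theorem result : (MRP.{u} → Star.{u}) ∧
    (PFA.{v} → {μ : Cardinal.{v} | IsMeasurable μ}.Infinite →
      ∃ (M : Type (v + 1)) (E : M → M → Prop), ZFC E ∧ IPID E ∧ ¬ IStar E) :=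
  ⟨star_of_MRP, model_of_PFA⟩

end Pool.Agent.Results.MP_76b292_lc.Both
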