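import Pool.Agent.MP_76b292_lc.gm.Game

universe u

open Pool.Agent.MP_76b292_lc Pool.Agent.MP_76b292_lc.GM

/-- Under PID, at a strong limit cardinal of uncountable cofinality that carries a uniform
indecomposable ultrafilter, player I has no winning strategy in any filter game of length below
the successor cardinal. -/
theorem Pool.Agent.Results.MP_76b292_lc.PIDGame.result (hPID : PID.{u}) (κ : Cardinal.{u})
    (hcof : Cardinal.aleph0 < κ.ord.cof) (hsl : κ.IsStrongLimit) (hU : CarriesIndec κ)
    (γ : Ordinal.{u}) (hγ : γ.card ≤ κ) : NoWinI κ γ :=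
  noWin' hPID hcof hsl hU hγ
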